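import Pool.Agent.Helper69.EL.Main

set_option autoImplicit false

/-!
# Orbits which escape to infinity: smooth potentials are dense on flat tori of dimension two

Let `𝕋²` be a two-dimensional torus with an arbitrary flat metric `A` and `k ≥ 2`. For EVERY potential
`f₀ ∈ C^k(𝕋² × 𝕋)` and every `ε > 0` there is a SMOOTH potential `f ∈ C^∞(𝕋² × 𝕋)` with
`‖f - f₀‖_{C^k} ≤ ε` such that the Euler-Lagrange flow of the mechanical Lagrangian
`½ ⟨A v, v⟩ + f(x, t)` has an orbit which tends to infinity. So for all mechanical Lagrangians on flat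
two-dimensional tori, the case of the smallest dimension in Arnold's question, the set of the
potentials with an orbit which tends to infinity is dense in `C^k(𝕋² × 𝕋)` for every `k ≥ 2`, and it
is dense in `C^∞(𝕋² × 𝕋)`.

Idea of the proof. After smoothing, the subtraction of the average along a long closed geodesic and a
linear change of coordinates `f₀` is a smooth function `F` whose averages in the direction of `x₀`
vanish. A small potential `l² k(x₁)² / (2 γ)` creates a hyperbolic equilibrium of the slow variable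
`x₁` and a homoclinic connection. A smooth potential `S(x₁, t)`, a sum of control potentials in
disjoint tubes around the connection, is added. Averaging of the order `n` in the inverse velocity
(an approximate solution of the Hamilton-Jacobi equation) for the potential `F + l² k²/(2γ) + S` gives
an adiabatic invariant `J` with `J' = O(J^(-n))`. A path of initial conditions which crosses the
stable manifold is stretched there in the waiting time `O(log J)`; then it goes through one of the
tubes, in which `S` drives its ends to different sides of the stable manifold again, and a smooth kick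
potential increases `J` by more than the error of the adiabatic invariant. For each block
`[2^i, 2^(i+1))` of velocities there are three tubes, and one of them is selected according to the
phase. The kicks in the block `i` have the size `O(2^(-c i ν(i)))` and the order of averaging in the
block is `ν(i) + 3`, where `ν(i) → ∞` so slowly that the block `i` is above the thresholds of the
order `ν(i) + 3`; at the end of a block the order of averaging is changed. All derivatives of the
kicks are summable since `ν(i) → ∞`, so that the sum of the kick potentials is smooth.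
-/

namespace Pool.Agent.Results.MP_6acca1_an.SmoothDenseEscapeSurfaces

open Set Filter Topology
open scoped ContDiff

/-- `f` is `ℤⁿ × ℤ`-periodic: a function on `𝕋ⁿ × 𝕋`. -/
def Periodic {n : ℕ} (f : (Fin n → ℝ) × ℝ → ℝ) : Prop :=
  ∀ (p : (Fin n → ℝ) × ℝ) (k : Fin n → ℤ) (l : ℤ), f (p.1 + (fun i => (k i : ℝ)), p.2 + l) = f p

/-- The Lagrangian `½ ⟨A v, v⟩ + f(x, t)`. -/
noncomputable def lagrangian {n : ℕ} (A : Matrix (Fin n) (Fin n) ℝ) (f : (Fin n → ℝ) × ℝ → ℝ)
    (x v : Fin n → ℝ) (t : ℝ) : ℝ := 1 / 2 * (∑ i, ∑ j, A i j * v i * v j) + f (x, t)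

/-- The partial derivative `∂L/∂v_i`. -/
noncomputable def dv {n : ℕ} (L : (Fin n → ℝ) → (Fin n → ℝ) → ℝ → ℝ) (i : Fin n)
    (x v : Fin n → ℝ) (t : ℝ) : ℝ := deriv (fun s => L x (Function.update v i s) t) (v i)

/-- The partial derivative `∂L/∂x_i`. -/
noncomputable def dx {n : ℕ} (L : (Fin n → ℝ) → (Fin n → ℝ) → ℝ → ℝ) (i : Fin n)
    (x v : Fin n → ℝ) (t : ℝ) : ℝ := deriv (fun s => L (Function.update x i s) v t) (x i)

/-- `γ : ℝ → ℝⁿ` is a solution, defined for all times, of the Euler-Lagrange equations
`d/dt ∂L/∂v_i (γ, γ', t) = ∂L/∂x_i (γ, γ', t)`. -/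
def IsOrbit {n : ℕ} (L : (Fin n → ℝ) → (Fin n → ℝ) → ℝ → ℝ) (γ : ℝ → (Fin n → ℝ)) : Prop :=
  (∀ t, DifferentiableAt ℝ γ t) ∧
  ∀ (t : ℝ) (i : Fin n), HasDerivAt (fun s => dv L i (γ s) (deriv γ s) s)
    (dx L i (γ t) (deriv γ t) t) t

/-- Let `A` be a positive definite symmetric `2 × 2` matrix and `k ≥ 2`. For every potential `f₀` of
class `C^k` on `𝕋² × 𝕋` and every `ε > 0` there is a smooth potential `f` on `𝕋² × 𝕋` such that all
derivatives of `f - f₀` of order at most `k` are at most `ε` and the Euler-Lagrange flow of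
`½ ⟨A v, v⟩ + f(x, t)` has an orbit `γ` which tends to infinity. -/
theorem result (k : ℕ) (hk : 2 ≤ k) (A : Matrix (Fin 2) (Fin 2) ℝ) (hA : A.PosDef)
    (f₀ : (Fin 2 → ℝ) × ℝ → ℝ) (hf₀ : ContDiff ℝ k f₀) (hp : Periodic f₀) (ε : ℝ) (hε : 0 < ε) :
    ∃ f : (Fin 2 → ℝ) × ℝ → ℝ, ContDiff ℝ ∞ f ∧ Periodic f ∧
      (∀ (j : ℕ) (p : (Fin 2 → ℝ) × ℝ), j ≤ k →
        ‖iteratedFDeriv ℝ j (fun q => f q - f₀ q) p‖ ≤ ε) ∧
      ∃ γ : ℝ → (Fin 2 → ℝ), IsOrbit (lagrangian A f) γ ∧
        Tendsto (fun t => ‖deriv γ t‖) atTop atTop := by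
  obtain ⟨f, h1, h2, h3, γ, h4, h5⟩ := Pool.Agent.Helper69.EL.main k hk A hA f₀ hf₀ hp ε hε
  exact ⟨f, h1, h2, h3, γ, h4, h5⟩

end Pool.Agent.Results.MP_6acca1_an.SmoothDenseEscapeSurfaces
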