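import Pool.Agent.Helper69.EI.Main

set_option autoImplicit false

/-!
# Orbits which escape to infinity: arbitrarily `C^∞`-small potentials on every flat torus

Let `V/Λ` be any flat torus of dimension `n = m + 2 ≥ 2`, where `Λ` is the lattice spanned by the
basis `β 0, …, β (m + 1)` of the Euclidean space `V`, let `q₀` be the first coordinate with respect
to this basis and `g` its gradient. Let `f₀ = u + h(q₀)`, where `h` is any smooth `1`-periodic
function and `u` any smooth function on `V/Λ` which is invariant in the direction of `g`. For every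
`K` and every `ε > 0` there is a potential `f ∈ C^∞((V/Λ) × 𝕋)` with `‖f - f₀‖_{C^K} ≤ ε` such that
the Euler-Lagrange flow of `½ |v|² + f(q, t)` has an orbit which tends to infinity.

For `u = h = 0` the potentials are arbitrarily small, in the `C^∞` topology, perturbations of the
geodesic flow, for which the velocities are constant, of an arbitrary flat torus of dimension at
least two. If the basis is orthogonal, `f₀` is any autonomous potential
`u(q₁, …, q_{n-1}) + h(q₀)`; the unperturbed flow of `½ |v|² + f₀` conserves its energy, so that its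
velocities are bounded.

Idea of the proof. The coordinate `q₀` is a clock, the motion of which is exactly decoupled from
the other coordinates. It is a particle in the potential `h`, at energies slightly above the
critical energy, so that the times of the passages of the top depend very sensitively on the
energy. The gates are countably many potentials `ε_k ρ_k(t) Θ_k(q₀) (½ (q₀ - c_k)² + cos(⋯))`,
which are active in short windows of time and in small intervals around `c_k`. The first term
changes the energy of the clock, with a sign which depends on the position in the gate, so that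
curves of initial conditions are stretched over all later gates and there is, by nested intervals,
an orbit of the clock which is in the gate `k_j` at the time `n_j`, for every sequence `k_j` of
gates and all sufficiently large waiting times `n_{j+1} - n_j`; the time windows of all other
passages are missed. The second term is a kick for the other coordinates, which do not
influence the clock; a favourable gate, which increases their energy, is chosen each time. The
windows and amplitudes of the gates tend to zero so fast that the sum of the potentials is smooth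
and small, but each gate is used as often as necessary.
-/

namespace Pool.Agent.Results.MP_6acca1_an.SmoothEscape

open Set Filter Topology
open scoped ContDiff

variable {V : Type*} [NormedAddCommGroup V] [InnerProductSpace ℝ V]

/-- `f(q, t)` is periodic with respect to the lattice `Λ` spanned by the basis `β`, and
`1`-periodic in `t`: a function on `(V/Λ) × 𝕋`. -/
def Periodic {n : ℕ} (β : Module.Basis (Fin n) ℝ V) (f : V × ℝ → ℝ) : Prop :=
  (∀ (i : Fin n) (p : V × ℝ), f (p.1 + β i, p.2) = f p) ∧ ∀ p : V × ℝ, f (p.1, p.2 + 1) = f p

/-- The Lagrangian `½ |v|² + f(q, t)`. -/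
noncomputable def lagrangian (f : V × ℝ → ℝ) (q v : V) (t : ℝ) : ℝ := 1 / 2 * ‖v‖ ^ 2 + f (q, t)

/-- `γ : ℝ → V` is a solution, defined for all times, of the Euler-Lagrange equation
`d/dt ∂L/∂v (γ, γ', t) = ∂L/∂q (γ, γ', t)`. -/
def IsOrbit (L : V → V → ℝ → ℝ) (γ : ℝ → V) : Prop :=
  (∀ t, DifferentiableAt ℝ γ t) ∧
  ∀ t : ℝ, HasDerivAt (fun s => fderiv ℝ (fun v => L (γ s) v s) (deriv γ s))
    (fderiv ℝ (fun q => L q (deriv γ t) t) (γ t)) t

/-- Let `V/Λ` be a flat torus of dimension `m + 2`, where `Λ` is spanned by the basis `β`; let `g` be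
the gradient of the first coordinate `q₀ = β.coord 0`. Let `u` be a smooth `Λ`-periodic function
on `V` which is invariant under the translations by multiples of `g`, and `h` a smooth
`1`-periodic function on `ℝ`. For every `K` and `ε > 0` there is a smooth potential `f` on
`(V/Λ) × 𝕋` such that all derivatives of `f - (u + h(q₀))` of order at most `K` are bounded by `ε`
and the Euler-Lagrange flow of `½ |v|² + f(q, t)` has an orbit which tends to infinity. -/
theorem result {m : ℕ} (β : Module.Basis (Fin (m + 2)) ℝ V) (g : V)
    (hg : ∀ v, inner ℝ g v = β.coord 0 v) (u : V → ℝ) (hu : ContDiff ℝ ∞ u)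
    (hup : ∀ (i : Fin (m + 2)) (q : V), u (q + β i) = u q)
    (hug : ∀ (q : V) (s : ℝ), u (q + s • g) = u q) (h : ℝ → ℝ) (hh : ContDiff ℝ ∞ h)
    (hhp : ∀ y, h (y + 1) = h y) (K : ℕ) (ε : ℝ) (hε : 0 < ε) :
    ∃ f : V × ℝ → ℝ, ContDiff ℝ ∞ f ∧ Periodic β f ∧
      (∀ (j : ℕ) (p : V × ℝ), j ≤ K →
        ‖iteratedFDeriv ℝ j (fun q => f q - (u q.1 + h (β.coord 0 q.1))) p‖ ≤ ε) ∧
      ∃ γ : ℝ → V, IsOrbit (lagrangian f) γ ∧ Tendsto (fun t => ‖deriv γ t‖) atTop atTop := by
  have : FiniteDimensional ℝ V := Module.Finite.of_basis β
  have : CompleteSpace V := FiniteDimensional.complete ℝ V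
  obtain ⟨f, hf, hp, hb, ξ, hξ, hξ'⟩ :=
    Pool.Agent.Helper69.EI.main β u hu hup g hg hug h hh hhp K ε hε
  have hγ : ∀ t, HasDerivAt (fun t => (ξ t).1) (ξ t).2 t := fun t => (hξ t).fst
  have hγ' : deriv (fun t => (ξ t).1) = fun t => (ξ t).2 := funext fun t => (hγ t).deriv
  refine ⟨f, hf, hp, fun j p hj => hb j hj p, fun t => (ξ t).1, ⟨fun t => (hγ t).differentiableAt,
    fun t => ?_⟩, ?_⟩
  · rw [hγ']
    have h1 : ∀ s : ℝ, fderiv ℝ (fun v => lagrangian f (ξ s).1 v s) (ξ s).2 =
        innerSL ℝ (ξ s).2 := by
      intro s
      have h2 : HasFDerivAt (fun v : V => lagrangian f (ξ s).1 v s) (innerSL ℝ (ξ s).2)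
          (ξ s).2 := by
        have h3 := (((hasFDerivAt_id (𝕜 := ℝ) (ξ s).2).norm_sq).const_mul (1 / 2)).add_const
          (f ((ξ s).1, s))
        refine h3.congr_fderiv ?_
        ext v
        simp
      exact h2.fderiv
    simp only [h1]
    have h2 : fderiv ℝ (fun q => lagrangian f q (ξ t).2 t) (ξ t).1 =
        innerSL ℝ (Pool.Agent.Helper69.EI.Gr (fderiv ℝ f ((ξ t).1, t))) := by
      have h3 : HasFDerivAt (fun q : V => (q, t)) (ContinuousLinearMap.inl ℝ V ℝ) (ξ t).1 :=
        (hasFDerivAt_id (𝕜 := ℝ) (ξ t).1).prodMk (hasFDerivAt_const t (ξ t).1)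
      have h4 := (((hf.differentiable (by simp) ((ξ t).1, t)).hasFDerivAt.comp (ξ t).1 h3).const_add
        (1 / 2 * ‖(ξ t).2‖ ^ 2)).fderiv
      have h5 : fderiv ℝ (fun q => lagrangian f q (ξ t).2 t) (ξ t).1 = _ := h4
      rw [h5]
      ext v
      rw [innerSL_apply_apply, Pool.Agent.Helper69.EI.inner_Gr]
      simp
    rw [h2]
    exact (innerSL ℝ).hasFDerivAt.comp_hasDerivAt t (hξ t).snd
  · rw [hγ']
    exact hξ'

end Pool.Agent.Results.MP_6acca1_an.SmoothEscape
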