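import Pool.Graph.R_pool_sql_team_seeded_1e53cb71.Helper6K9.EG.Gen2
import Pool.Agent.Helper69.EL.Main

set_option autoImplicit false

/-!
# Generic potentials of every class `C^r`, `2 ≤ r ≤ ∞`, on flat tori of dimension two: unlimited growth

Let `𝕋²` be a two-dimensional torus with an arbitrary flat metric `A`, let `2 ≤ r ≤ ∞`, and let
`g : ℝ → ℝ` be an arbitrary (increasing) function, for instance an iterated exponential. For every
potential `f` in a RESIDUAL subset of `C^r(𝕋² × 𝕋)` the Euler-Lagrange flow of `½ ⟨A v, v⟩ + f(x, t)`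
has, for every `R`, an orbit which starts with a speed `R' ≥ R` and reaches the speed `g(R')`; its speed
is at least `R` all the time.

So for generic SMOOTH potentials there is no bound at all for the growth of the speed,
`limsup_{R → ∞} Φ_f(R) / g(R) = ∞` for the maximal speed `Φ_f(R) ≤ ∞` reached by the orbits which start
with speeds at most `R`, while in dimension one invariant tori imply `Φ_f(R) ≤ R + C` for smooth `f`,
and in dimension two these tori exist and have almost full measure at high speeds.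

The proof: the smooth potentials with orbits which escape to infinity are dense in `C^r(𝕋² × 𝕋)`
(`SmoothDenseEscapeSurfaces`), and the property is open for each bounded interval of time.
-/

namespace Pool.Agent.Results.MP_6acca1_an.SmoothGenericGrowth

open Set Filter Topology
open scoped ContDiff

/-- `f` is `ℤⁿ × ℤ`-periodic: a function on `𝕋ⁿ × 𝕋`. -/
def Periodic {n : ℕ} (f : (Fin n → ℝ) × ℝ → ℝ) : Prop :=
  ∀ (p : (Fin n → ℝ) × ℝ) (k : Fin n → ℤ) (l : ℤ), f (p.1 + (fun i => (k i : ℝ)), p.2 + l) = f p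

/-- The Lagrangian `½ ⟨A v, v⟩ + f(x, t)`. -/
noncomputable def lagrangian {n : ℕ} (A : Matrix (Fin n) (Fin n) ℝ) (f : (Fin n → ℝ) × ℝ → ℝ)
    (x v : Fin n → ℝ) (t : ℝ) : ℝ := 1 / 2 * (∑ i, ∑ j, A i j * v i * v j) + f (x, t)

/-- The partial derivative `∂L/∂v_i`. -/
noncomputable def dv {n : ℕ} (L : (Fin n → ℝ) → (Fin n → ℝ) → ℝ → ℝ) (i : Fin n)
    (x v : Fin n → ℝ) (t : ℝ) : ℝ := deriv (fun s => L x (Function.update v i s) t) (v i)

/-- The partial derivative `∂L/∂x_i`. -/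
noncomputable def dx {n : ℕ} (L : (Fin n → ℝ) → (Fin n → ℝ) → ℝ → ℝ) (i : Fin n)
    (x v : Fin n → ℝ) (t : ℝ) : ℝ := deriv (fun s => L (Function.update x i s) v t) (x i)

/-- `γ : ℝ → ℝⁿ` is a solution, defined for all times, of the Euler-Lagrange equations
`d/dt ∂L/∂v_i (γ, γ', t) = ∂L/∂x_i (γ, γ', t)`. -/
def IsOrbit {n : ℕ} (L : (Fin n → ℝ) → (Fin n → ℝ) → ℝ → ℝ) (γ : ℝ → (Fin n → ℝ)) : Prop :=
  (∀ t, DifferentiableAt ℝ γ t) ∧
  ∀ (t : ℝ) (i : Fin n), HasDerivAt (fun s => dv L i (γ s) (deriv γ s) s)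
    (dx L i (γ t) (deriv γ t) t) t

/-- The potentials of class `C^r` on `𝕋ⁿ × 𝕋`, `r ≤ ∞`. -/
def Pot (n : ℕ) (r : ℕ∞) : Set ((Fin n → ℝ) × ℝ → ℝ) := {f | ContDiff ℝ r f ∧ Periodic f}

/-- All derivatives of `h - f` of order at most `k` are at most `ε`: the distance of
`C^k(𝕋ⁿ × 𝕋)`. -/
def Close {n : ℕ} (k : ℕ) (ε : ℝ) (h f : (Fin n → ℝ) × ℝ → ℝ) : Prop :=
  ∀ (j : ℕ) (p : (Fin n → ℝ) × ℝ), j ≤ k → ‖iteratedFDeriv ℝ j (fun q => h q - f q) p‖ ≤ ε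

/-- `U` is an open subset of `C^r(𝕋ⁿ × 𝕋)` (for `r = ∞` the topology is that of the uniform
convergence of all derivatives). -/
def IsOpenC {n : ℕ} (r : ℕ∞) (U : Set ((Fin n → ℝ) × ℝ → ℝ)) : Prop :=
  U ⊆ Pot n r ∧ ∀ f ∈ U, ∃ (k : ℕ) (ε : ℝ), (k : ℕ∞) ≤ r ∧ 0 < ε ∧
    ∀ h ∈ Pot n r, Close k ε h f → h ∈ U

/-- `U` is a dense subset of `C^r(𝕋ⁿ × 𝕋)`. -/
def IsDenseC {n : ℕ} (r : ℕ∞) (U : Set ((Fin n → ℝ) × ℝ → ℝ)) : Prop :=
  ∀ f ∈ Pot n r, ∀ (k : ℕ) (ε : ℝ), (k : ℕ∞) ≤ r → 0 < ε → ∃ h ∈ U, Close k ε h f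

/-- `O` contains the intersection of a sequence of open dense subsets of `C^r(𝕋ⁿ × 𝕋)`. -/
def IsResidualC {n : ℕ} (r : ℕ∞) (O : Set ((Fin n → ℝ) × ℝ → ℝ)) : Prop :=
  ∃ U : ℕ → Set ((Fin n → ℝ) × ℝ → ℝ), (∀ k, IsOpenC r (U k) ∧ IsDenseC r (U k)) ∧ ⋂ k, U k ⊆ O

/-- Let `A` be a positive definite symmetric `2 × 2` matrix, `2 ≤ r ≤ ∞`, and let `g : ℝ → ℝ` be
monotone. For all potentials `f` in a residual subset of `C^r(𝕋² × 𝕋)`: for every `R` the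
Euler-Lagrange flow of `½ ⟨A v, v⟩ + f(x, t)` has an orbit `γ` and a time interval `[a, b]` during which
the speed is at least `R` and at whose end the speed is at least `g(‖γ'(a)‖)`. -/
theorem result (A : Matrix (Fin 2) (Fin 2) ℝ) (hA : A.PosDef) (r : ℕ∞) (hr : 2 ≤ r)
    (g : ℝ → ℝ) (hg : Monotone g) :
    IsResidualC r {f : (Fin 2 → ℝ) × ℝ → ℝ | ∀ R : ℝ, ∃ γ : ℝ → (Fin 2 → ℝ),
      IsOrbit (lagrangian A f) γ ∧ ∃ a b : ℝ, a < b ∧ (∀ t ∈ Icc a b, R ≤ ‖deriv γ t‖) ∧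
        g ‖deriv γ a‖ ≤ ‖deriv γ b‖} := by
  have hr2 : (2 : WithTop ℕ∞) ≤ (r : WithTop ℕ∞) := WithTop.coe_le_coe.2 hr
  refine ⟨fun k => Pot 2 r ∩ Pool.Agent.Helper6K9.EG.UR (m := 1) A g (fun _ => -1) k,
    fun k => ⟨⟨fun f hf => hf.1, fun f hf => ?_⟩, fun f hf k' ε hk' hε => ?_⟩, fun f hf R => ?_⟩
  · obtain ⟨δ, hδ, h1⟩ := Pool.Agent.Helper6K9.EG.ur_open (m := 1) A hA g _ continuous_const k f hf.2
    exact ⟨2, δ, by exact_mod_cast hr, hδ, fun h hh hc =>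
      ⟨hh, h1 h ⟨hh.1.of_le hr2, hh.2⟩ fun j p hj => hc j p hj⟩⟩
  · have hmax : ((max k' 2 : ℕ) : ℕ∞) ≤ r := by
      rcases le_total k' 2 with h | h
      · rw [max_eq_right h]; exact_mod_cast hr
      · rw [max_eq_left h]; exact hk'
    obtain ⟨h, h1, h2, h3, γ, h4, h5⟩ := Pool.Agent.Helper69.EL.main (max k' 2) (le_max_right _ _)
      A hA f (hf.1.of_le (by exact_mod_cast hmax)) hf.2 ε hε
    refine ⟨h, ⟨⟨h1.of_le (by exact_mod_cast le_top), h2⟩, ?_⟩,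
      fun j p hj => h3 j p (hj.trans (le_max_left _ _))⟩
    refine Pool.Agent.Helper6K9.EG.ur_dense (m := 1) A g _ k h
      ⟨contDiff_infty.1 h1 2, h2⟩ ⟨γ, h4, h5, Eventually.of_forall fun a t _ => ?_⟩
    linarith [norm_nonneg (deriv γ t)]
  · obtain ⟨γ, h1, a, b, h2, h3, h4, -⟩ := Pool.Agent.Helper6K9.EG.ur_grow (m := 1) A g _ hg f
      (fun k => (mem_iInter.1 hf k).2) R
    exact ⟨γ, h1, a, b, h2, h3, h4⟩

end Pool.Agent.Results.MP_6acca1_an.SmoothGenericGrowth
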