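import Pool.Agent.Helper69.ET.Gen

set_option autoImplicit false

/-!
# Arnold's question in higher dimension: Lagrangians with a flat invariant torus of dimension two

Let `V/Λ` be a torus of an arbitrary dimension `n = m + 2 ≥ 2`, where `Λ` is the lattice spanned by
the basis `β 0, …, β (m + 1)` of the Euclidean space `V`, let `W` be the plane spanned by `β 0` and
`β 1`, and consider the two-dimensional subtorus `z₀ + W`. Let `L` be any time-periodic Lagrangian on
`V/Λ` such that `∂L/∂v(q, v, t) = ⟨v, ·⟩` and `∂L/∂q(q, v, t) = 0` for all tangent vectors `(q, v)` of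
this subtorus; for instance `L = ½ |v|²`, or `L = ½ G_q(v, v)` for any Riemannian metric `G` on `V/Λ`
such that `G_q(v, ·) = ⟨v, ·⟩` and the first derivatives of `q ↦ G_q(v, v)` vanish for all tangent
vectors `(q, v)` of the subtorus. Let `Pot r` be the closed subspace of the potentials
`f ∈ C^r((V/Λ) × 𝕋)`, `2 ≤ r ≤ ∞`, whose normal derivatives along the subtorus vanish; for instance,
the potentials which are symmetric with respect to the subtorus have this property.

The potentials `f ∈ Pot r` such that the Euler-Lagrange flow of `L + f` has an orbit which tends to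
infinity are dense in `Pot r`.

The proof: the subtorus is invariant, the restriction of `L + f` to it is `½ |v|² + f`, every potential
on the subtorus extends to an element of `Pot r` of comparable size (composition with a smooth
retraction of the torus `V/Λ` to the subtorus the derivative of which on the subtorus is the orthogonal
projection), and on the subtorus the theorem `SmoothDenseEscapeSurfaces` is used.
-/

namespace Pool.Agent.Results.MP_6acca1_an.SubtoriDenseEscape

open Set Filter Topology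
open scoped ContDiff

variable {V : Type*} [NormedAddCommGroup V] [InnerProductSpace ℝ V] {m : ℕ}

/-- `f(q, t)` is periodic with respect to the lattice `Λ` spanned by the basis `β`, and
`1`-periodic in `t`: a function on `(V/Λ) × 𝕋`. -/
def Periodic {n : ℕ} (β : Module.Basis (Fin n) ℝ V) (f : V × ℝ → ℝ) : Prop :=
  (∀ (i : Fin n) (p : V × ℝ), f (p.1 + β i, p.2) = f p) ∧ ∀ p : V × ℝ, f (p.1, p.2 + 1) = f p

/-- `γ : ℝ → V` is a solution, defined for all times, of the Euler-Lagrange equation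
`d/dt ∂L/∂v (γ, γ', t) = ∂L/∂q (γ, γ', t)`. -/
def IsOrbit (L : V → V → ℝ → ℝ) (γ : ℝ → V) : Prop :=
  (∀ t, DifferentiableAt ℝ γ t) ∧
  ∀ t : ℝ, HasDerivAt (fun s => fderiv ℝ (fun v => L (γ s) v s) (deriv γ s))
    (fderiv ℝ (fun q => L q (deriv γ t) t) (γ t)) t

/-- The plane `W` spanned by the first two basis vectors: the tangent space of the subtorus
`z₀ + W`. -/
def plane (β : Module.Basis (Fin (m + 2)) ℝ V) : Submodule ℝ V := Submodule.span ℝ {β 0, β 1}

/-- `∂L/∂v(q, v, t) = ⟨v, ·⟩` and `∂L/∂q(q, v, t) = 0` for all tangent vectors `(q, v)` of the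
subtorus `z₀ + W`. -/
def FlatOn (β : Module.Basis (Fin (m + 2)) ℝ V) (z₀ : V) (L : V → V → ℝ → ℝ) : Prop :=
  ∀ (q v : V) (t : ℝ), q - z₀ ∈ plane β → v ∈ plane β →
    HasFDerivAt (fun v => L q v t) (innerSL ℝ v) v ∧
    HasFDerivAt (fun q => L q v t) (0 : V →L[ℝ] ℝ) q

/-- The potentials of class `C^r` on `(V/Λ) × 𝕋` whose derivatives in the directions orthogonal to `W`
vanish at the points of the subtorus `z₀ + W`. -/
def Pot (β : Module.Basis (Fin (m + 2)) ℝ V) (z₀ : V) (r : ℕ∞) : Set (V × ℝ → ℝ) :=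
  {f | ContDiff ℝ r f ∧ Periodic β f ∧
    ∀ (q : V) (t : ℝ), q - z₀ ∈ plane β → ∀ u ∈ (plane β)ᗮ, fderiv ℝ (fun q => f (q, t)) q u = 0}

/-- Let `V/Λ` be a torus of dimension `m + 2`, where `Λ` is spanned by the basis `β`, let `W` be the
span of `β 0` and `β 1`, `z₀ ∈ V`, and let `L` be a Lagrangian with `∂L/∂v = ⟨v, ·⟩` and `∂L/∂q = 0` at
the tangent vectors of the subtorus `z₀ + W`. Let `2 ≤ r ≤ ∞`. For every `f₀ ∈ Pot r`, every finite
`k ≤ r` and every `ε > 0` there is `f ∈ Pot r` such that all derivatives of `f - f₀` of order at most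
`k` are at most `ε` and the Euler-Lagrange flow of `L + f` has an orbit which tends to infinity. -/
theorem result (β : Module.Basis (Fin (m + 2)) ℝ V) (z₀ : V) (L : V → V → ℝ → ℝ)
    (hL : FlatOn β z₀ L) (r : ℕ∞) (hr : 2 ≤ r) (f₀ : V × ℝ → ℝ) (hf₀ : f₀ ∈ Pot β z₀ r)
    (k : ℕ) (hk : (k : ℕ∞) ≤ r) (ε : ℝ) (hε : 0 < ε) :
    ∃ f ∈ Pot β z₀ r,
      (∀ (j : ℕ) (p : V × ℝ), j ≤ k → ‖iteratedFDeriv ℝ j (fun q => f q - f₀ q) p‖ ≤ ε) ∧
      ∃ γ : ℝ → V, IsOrbit (fun q v t => L q v t + f (q, t)) γ ∧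
        Tendsto (fun t => ‖deriv γ t‖) atTop atTop := by
  obtain ⟨R, h0, h1, hR, hR2⟩ := Pool.Agent.Helper69.ET.exists_R β
  obtain ⟨c, hc⟩ : ∃ c : ℝ, c = ‖R‖ + 1 := ⟨_, rfl⟩
  have hc0 : 0 < c := by rw [hc]; positivity
  have hlow : ∀ x : Fin 2 → ℝ, ‖x‖ ≤ c * ‖Pool.Agent.Helper69.ET.io β x‖ := by
    intro x
    have h2 := R.le_opNorm (Pool.Agent.Helper69.ET.io β x)
    rw [Pool.Agent.Helper69.ET.R_io β R h0 h1 x] at h2
    rw [hc, add_mul]
    nlinarith [norm_nonneg (Pool.Agent.Helper69.ET.io β x)]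
  have hr2 : (2 : WithTop ℕ∞) ≤ (r : WithTop ℕ∞) := WithTop.coe_le_coe.2 hr
  have hr1 : (r : WithTop ℕ∞) ≠ 0 := by
    intro h
    rw [h] at hr2
    exact absurd hr2 (by norm_num)
  obtain ⟨F, g1, g2, g3, g4, γ, g5, g6⟩ := Pool.Agent.Helper69.ET.dense_core β z₀ r hr f₀ hf₀.1
    hf₀.2.1 hf₀.2.2 k hk ε hε
  obtain ⟨h2, h3⟩ := Pool.Agent.Helper69.ET.orbit β z₀ R h0 h1 hR2 L hL F
    (g1.differentiable hr1) g3 γ g5
  have h4 : deriv (fun t => z₀ + Pool.Agent.Helper69.ET.io β (γ t)) =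
      fun t => Pool.Agent.Helper69.ET.io β (deriv γ t) := funext fun t => (h2 t).deriv
  refine ⟨F, ⟨g1, g2, g3⟩, g4, fun t => z₀ + Pool.Agent.Helper69.ET.io β (γ t),
    ⟨fun t => (h2 t).differentiableAt, fun t => ?_⟩, ?_⟩
  · rw [h4]
    exact h3 t
  · rw [h4]
    have h5 : Tendsto (fun t => c * ‖Pool.Agent.Helper69.ET.io β (deriv γ t)‖) atTop atTop :=
      tendsto_atTop_mono (fun t => hlow (deriv γ t)) g6
    exact (tendsto_const_mul_atTop_of_pos hc0).1 h5

end Pool.Agent.Results.MP_6acca1_an.SubtoriDenseEscape
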